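/-
Evaluation of power series over the rationals at complex numbers (project PI, MP_e49510_nt).
-/
import Pool.Agent.H22.Pi.Defs

set_option autoImplicit false

namespace Pool.Agent.H65.Pi

open Complex Filter Asymptotics Pool.Agent.H22.Pi
open scoped Real Topology

/-- the power series `f` converges at `z` with sum `s` -/
def HS (f : PowerSeries ℚ) (z s : ℂ) : Prop :=
  HasSum (fun N : ℕ => ((PowerSeries.coeff N f : ℚ) : ℂ) * z ^ N) s

theorem HS.unique {f : PowerSeries ℚ} {z s t : ℂ} (hf : HS f z s) (hg : HS f z t) : s = t :=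
  HasSum.unique hf hg

theorem HS.zero (z : ℂ) : HS 0 z 0 := by
  unfold HS
  simp [hasSum_zero]

theorem HS.add {f g : PowerSeries ℚ} {z s t : ℂ} (hf : HS f z s) (hg : HS g z t) :
    HS (f + g) z (s + t) := by
  have h := HasSum.add hf hg
  have e : (fun N : ℕ => ((PowerSeries.coeff N (f + g) : ℚ) : ℂ) * z ^ N) =
      fun N : ℕ => ((PowerSeries.coeff N f : ℚ) : ℂ) * z ^ N +
        ((PowerSeries.coeff N g : ℚ) : ℂ) * z ^ N := by
    funext N
    rw [map_add]
    push_cast
    ring
  unfold HS
  rw [e]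
  exact h

theorem HS.C_mul {f : PowerSeries ℚ} {z s : ℂ} (c : ℚ) (hf : HS f z s) :
    HS (PowerSeries.C c * f) z (c * s) := by
  have h := HasSum.mul_left (c : ℂ) hf
  have e : (fun N : ℕ => ((PowerSeries.coeff N (PowerSeries.C c * f) : ℚ) : ℂ) * z ^ N) =
      fun N : ℕ => (c : ℂ) * (((PowerSeries.coeff N f : ℚ) : ℂ) * z ^ N) := by
    funext N
    rw [PowerSeries.coeff_C_mul]
    push_cast
    ring
  unfold HS
  rw [e]
  exact h

theorem HS.X_mul {f : PowerSeries ℚ} {z s : ℂ} (hf : HS f z s) :
    HS (PowerSeries.X * f) z (z * s) := by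
  have h := HasSum.mul_left z hf
  unfold HS
  rw [← hasSum_nat_add_iff' 1]
  simp only [Finset.range_one, Finset.sum_singleton, pow_zero, mul_one,
    PowerSeries.coeff_succ_X_mul, PowerSeries.coeff_zero_X_mul, Rat.cast_zero, sub_zero]
  have e : (fun N : ℕ => ((PowerSeries.coeff N f : ℚ) : ℂ) * z ^ (N + 1)) =
      fun N : ℕ => z * (((PowerSeries.coeff N f : ℚ) : ℂ) * z ^ N) := by
    funext N
    rw [pow_succ]
    ring
  rw [e]
  exact h

theorem HS.poly_mul {f : PowerSeries ℚ} {z s : ℂ} (p : Polynomial ℚ) (hf : HS f z s) :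
    HS ((p : PowerSeries ℚ) * f) z (Polynomial.aeval z p * s) := by
  induction p using Polynomial.induction_on with
  | C c =>
    have := HS.C_mul c hf
    simpa using this
  | add p q hp hq =>
    have := HS.add hp hq
    rw [Polynomial.coe_add, map_add, add_mul, add_mul]
    exact this
  | monomial n c h =>
    have := HS.X_mul h
    have e1 : ((Polynomial.C c * Polynomial.X ^ (n + 1) : Polynomial ℚ) : PowerSeries ℚ) * f =
        PowerSeries.X * (((Polynomial.C c * Polynomial.X ^ n : Polynomial ℚ) : PowerSeries ℚ) * f) := by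
      simp only [Polynomial.coe_mul, Polynomial.coe_pow, Polynomial.coe_X, Polynomial.coe_C,
        pow_succ]
      ring
    have e2 : Polynomial.aeval z (Polynomial.C c * Polynomial.X ^ (n + 1) : Polynomial ℚ) * s =
        z * (Polynomial.aeval z (Polynomial.C c * Polynomial.X ^ n : Polynomial ℚ) * s) := by
      simp only [map_mul, map_pow, Polynomial.aeval_X, Polynomial.aeval_C, pow_succ]
      ring
    rw [e1, e2]
    exact this

theorem map_l0 {R S : Type*} [CommRing R] [CommRing S] (φ : R →+* S) (x : R) :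
    φ (l0 x) = l0 (φ x) := by
  simp only [l0, map_sub, map_add, map_mul, map_pow, map_neg, map_ofNat]

theorem map_l1 {R S : Type*} [CommRing R] [CommRing S] (φ : R →+* S) (x : R) :
    φ (l1 x) = l1 (φ x) := by
  simp only [l1, map_sub, map_add, map_mul, map_pow, map_neg, map_ofNat]

theorem map_l2 {R S : Type*} [CommRing R] [CommRing S] (φ : R →+* S) (x : R) :
    φ (l2 x) = l2 (φ x) := by
  simp only [l2, map_sub, map_add, map_mul, map_pow, map_neg, map_ofNat]

theorem map_l3 {R S : Type*} [CommRing R] [CommRing S] (φ : R →+* S) (x : R) :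
    φ (l3 x) = l3 (φ x) := by
  simp only [l3, map_sub, map_add, map_mul, map_pow, map_ofNat, map_one]

theorem HS.poly_mul' {f : PowerSeries ℚ} {z s : ℂ} (p : Polynomial ℚ) (P : PowerSeries ℚ)
    (c : ℂ) (hP : Polynomial.coeToPowerSeries.ringHom p = P)
    (hc : (Polynomial.aeval z : Polynomial ℚ →ₐ[ℚ] ℂ) p = c)
    (hf : HS f z s) : HS (P * f) z (c * s) := by
  subst hP hc
  exact HS.poly_mul p hf

end Pool.Agent.H65.Pi
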