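/-
Module AN2 of project PI (MP_e49510_nt).
-/
import Pool.Agent.H65.Pi.HS

set_option autoImplicit false

namespace Pool.Agent.H65.Pi

open Complex Filter Asymptotics Pool.Agent.H22.Pi
open scoped Real Topology

theorem an2_bound (h1 : An1Stmt) : ∃ C : ℝ, 0 ≤ C ∧ ∀ N : ℕ, ‖(aco N : ℂ)‖ ≤ C * 8 ^ N := by
  obtain ⟨hpos, -, hs, -, -⟩ := h1
  obtain ⟨C, hC⟩ := (hs.tendsto_atTop_zero).bddAbove_range
  have hC' : ∀ N : ℕ, (aco N : ℝ) * (1 / 8 : ℝ) ^ N ≤ C := fun N => hC (Set.mem_range_self N)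
  have h0 : (0 : ℝ) ≤ C := by
    refine le_trans ?_ (hC' 0)
    have : (0 : ℝ) ≤ (aco 0 : ℝ) := by exact_mod_cast hpos 0
    positivity
  refine ⟨C, h0, fun N => ?_⟩
  have h2 : (0 : ℝ) ≤ (aco N : ℝ) := by exact_mod_cast hpos N
  have h3 : ‖(aco N : ℂ)‖ = (aco N : ℝ) := by
    have : ((aco N : ℚ) : ℂ) = (((aco N : ℚ) : ℝ) : ℂ) := by norm_cast
    rw [this, Complex.norm_real, Real.norm_of_nonneg h2]
  rw [h3]
  have h4 := hC' N
  have h5 : ((1 / 8 : ℝ)) ^ N = (8 ^ N)⁻¹ := by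
    rw [one_div, inv_pow]
  rw [h5] at h4
  have h6 : (0 : ℝ) < 8 ^ N := by positivity
  calc (aco N : ℝ) = (aco N : ℝ) * (8 ^ N)⁻¹ * 8 ^ N := by field_simp
    _ ≤ C * 8 ^ N := by gcongr

theorem an2_term (h1 : An1Stmt) (j : ℕ) (r : ℝ) (hr0 : 0 ≤ r) (hr : r < 1 / 8) :
    ∃ u : ℕ → ℝ, Summable u ∧ ∀ (N : ℕ) (z : ℂ), ‖z‖ ≤ r →
      ‖(N : ℂ) ^ j * (aco N : ℂ) * z ^ N‖ ≤ u N := by
  obtain ⟨C, hC0, hC⟩ := an2_bound h1
  refine ⟨fun N => C * ((N : ℝ) ^ j * (8 * r) ^ N), ?_, ?_⟩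
  · refine Summable.mul_left C ?_
    apply summable_pow_mul_geometric_of_norm_lt_one
    rw [Real.norm_of_nonneg (by positivity)]
    linarith
  · intro N z hz
    rw [norm_mul, norm_mul, norm_pow, norm_pow, Complex.norm_natCast]
    calc (N : ℝ) ^ j * ‖(aco N : ℂ)‖ * ‖z‖ ^ N ≤ (N : ℝ) ^ j * (C * 8 ^ N) * r ^ N := by
          gcongr
          exact hC N
      _ = C * ((N : ℝ) ^ j * (8 * r) ^ N) := by
          rw [mul_pow]
          ring

theorem an2_radius (z : ℂ) (hz : ‖z‖ < 1 / 8) : ∃ r : ℝ, 0 ≤ r ∧ r < 1 / 8 ∧ ‖z‖ < r := by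
  obtain ⟨r, h1, h2⟩ := exists_between hz
  exact ⟨r, (norm_nonneg z).trans h1.le, h2, h1⟩

theorem an2_summable (h1 : An1Stmt) (j : ℕ) (z : ℂ) (hz : ‖z‖ < 1 / 8) :
    Summable (fun N : ℕ => (N : ℂ) ^ j * (aco N : ℂ) * z ^ N) := by
  obtain ⟨r, hr0, hr, hzr⟩ := an2_radius z hz
  obtain ⟨u, hu, hb⟩ := an2_term h1 j r hr0 hr
  exact Summable.of_norm_bounded hu fun N => hb N z hzr.le

theorem an2_diff (j N : ℕ) (U : Set ℂ) :
    DifferentiableOn ℂ (fun z : ℂ => (N : ℂ) ^ j * (aco N : ℂ) * z ^ N) U := by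
  intro z _
  exact (differentiableAt_const _).mul (differentiableAt_id.pow N) |>.differentiableWithinAt

theorem an2_Gz_diffAt (h1 : An1Stmt) (j : ℕ) (z : ℂ) (hz : ‖z‖ < 1 / 8) :
    DifferentiableAt ℂ (Gz j) z := by
  obtain ⟨r, hr0, hr, hzr⟩ := an2_radius z hz
  obtain ⟨u, hu, hb⟩ := an2_term h1 j r hr0 hr
  have h := differentiableOn_tsum_of_summable_norm hu
    (fun N => an2_diff j N (Metric.ball 0 r)) Metric.isOpen_ball
    (fun N w hw => hb N w (by
      rw [Metric.mem_ball, dist_zero_right] at hw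
      exact hw.le))
  exact (h.differentiableAt (Metric.isOpen_ball.mem_nhds (by
    rw [Metric.mem_ball, dist_zero_right]
    exact hzr)))

theorem an2_deriv (h1 : An1Stmt) (j : ℕ) (z : ℂ) (hz : ‖z‖ < 1 / 8) :
    z * deriv (Gz j) z = Gz (j + 1) z := by
  obtain ⟨r, hr0, hr, hzr⟩ := an2_radius z hz
  obtain ⟨u, hu, hb⟩ := an2_term h1 j r hr0 hr
  have h := hasSum_deriv_of_summable_norm hu
    (fun N => an2_diff j N (Metric.ball 0 r)) Metric.isOpen_ball
    (fun N w hw => hb N w (by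
      rw [Metric.mem_ball, dist_zero_right] at hw
      exact hw.le)) (z := z) (by
    rw [Metric.mem_ball, dist_zero_right]
    exact hzr)
  have h2 := HasSum.mul_left z h
  have h3 : (fun N : ℕ => z * deriv (fun z : ℂ => (N : ℂ) ^ j * (aco N : ℂ) * z ^ N) z) =
      fun N : ℕ => (N : ℂ) ^ (j + 1) * (aco N : ℂ) * z ^ N := by
    funext N
    have h4 : HasDerivAt (fun z : ℂ => (N : ℂ) ^ j * (aco N : ℂ) * z ^ N)
        ((N : ℂ) ^ j * (aco N : ℂ) * ((N : ℂ) * z ^ (N - 1))) z := by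
      simpa using (hasDerivAt_pow N z).const_mul ((N : ℂ) ^ j * (aco N : ℂ))
    rw [h4.deriv]
    rcases N with _ | N
    · simp
    · simp only [Nat.add_sub_cancel]
      ring
  rw [h3] at h2
  exact h2.tsum_eq.symm

/-- the power series with coefficients `N ^ j * aco N` -/
noncomputable def thj (j : ℕ) : PowerSeries ℚ := PowerSeries.mk fun N => (N : ℚ) ^ j * aco N

theorem thj_zero : thj 0 = PowerSeries.mk aco := by
  ext N
  simp [thj]

theorem thj_succ (j : ℕ) : th (thj j) = thj (j + 1) := by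
  ext N
  simp only [th, thj, PowerSeries.coeff_mk]
  ring

theorem an2_HS (h1 : An1Stmt) (j : ℕ) (z : ℂ) (hz : ‖z‖ < 1 / 8) : HS (thj j) z (Gz j z) := by
  have h := (an2_summable h1 j z hz).hasSum
  unfold HS
  have e : (fun N : ℕ => ((PowerSeries.coeff N (thj j) : ℚ) : ℂ) * z ^ N) =
      fun N : ℕ => (N : ℂ) ^ j * (aco N : ℂ) * z ^ N := by
    funext N
    simp [thj]
  rw [e]
  exact h

theorem an2 (hF : FormalStmt) (h1 : An1Stmt) : An2Stmt := by
  refine ⟨fun j z hz => an2_summable h1 j z hz, fun j z hz => ?_, fun j z hz => an2_deriv h1 j z hz,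
    fun z hz => ?_, ?_⟩
  · rw [Metric.mem_ball, dist_zero_right] at hz
    exact (an2_Gz_diffAt h1 j z hz).differentiableWithinAt
  · have hF1 := hF.1
    rw [← thj_zero, thj_succ, thj_succ, thj_succ] at hF1
    have cX : Polynomial.coeToPowerSeries.ringHom (Polynomial.X : Polynomial ℚ) =
        PowerSeries.X := by simp
    have aX : ((Polynomial.aeval z : Polynomial ℚ →ₐ[ℚ] ℂ) : Polynomial ℚ →+* ℂ) Polynomial.X = z := by
      simp
    have g0 := (an2_HS h1 0 z hz).poly_mul' (l0 Polynomial.X) (l0 PowerSeries.X) (l0 z)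
      (by rw [map_l0, cX]) (by
        have := map_l0 ((Polynomial.aeval z : Polynomial ℚ →ₐ[ℚ] ℂ) : Polynomial ℚ →+* ℂ)
          Polynomial.X
        rw [aX] at this
        exact this)
    have g1 := (an2_HS h1 1 z hz).poly_mul' (l1 Polynomial.X) (l1 PowerSeries.X) (l1 z)
      (by rw [map_l1, cX]) (by
        have := map_l1 ((Polynomial.aeval z : Polynomial ℚ →ₐ[ℚ] ℂ) : Polynomial ℚ →+* ℂ)
          Polynomial.X
        rw [aX] at this
        exact this)
    have g2 := (an2_HS h1 2 z hz).poly_mul' (l2 Polynomial.X) (l2 PowerSeries.X) (l2 z)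
      (by rw [map_l2, cX]) (by
        have := map_l2 ((Polynomial.aeval z : Polynomial ℚ →ₐ[ℚ] ℂ) : Polynomial ℚ →+* ℂ)
          Polynomial.X
        rw [aX] at this
        exact this)
    have g3 := (an2_HS h1 3 z hz).poly_mul' (l3 Polynomial.X) (l3 PowerSeries.X) (l3 z)
      (by rw [map_l3, cX]) (by
        have := map_l3 ((Polynomial.aeval z : Polynomial ℚ →ₐ[ℚ] ℂ) : Polynomial ℚ →+* ℂ)
          Polynomial.X
        rw [aX] at this
        exact this)
    have h4 := ((g0.add g1).add g2).add g3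
    refine h4.unique ?_
    have h5 := HS.zero z
    rw [← hF1] at h5
    exact h5
  · have : Gz 0 0 = (aco 0 : ℂ) := by
      unfold Gz
      rw [tsum_eq_single 0]
      · simp
      · intro N hN
        simp [hN]
    rw [this, h1.2.1]
    simp

end Pool.Agent.H65.Pi
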