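/-
Module EV of project PI (MP_e49510_nt), first part: logarithmic derivatives and the Fricke involution.
-/
import Pool.Agent.H22.Pi.Defs

set_option autoImplicit false

namespace Pool.Agent.H65.Pi

open Complex Filter Asymptotics Pool.Agent.H22.Pi
open scoped Real Topology

/-- the upper half plane -/
def UH : Set ℂ := {z | 0 < z.im}

theorem UH_open : IsOpen UH := isOpen_lt continuous_const Complex.continuous_im

theorem UH_exp {z : ℂ} (hz : z ∈ UH) : cexp (2 * π * I * z) ∈ Metric.ball (0 : ℂ) 1 := by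
  rw [Metric.mem_ball, dist_zero_right, Complex.norm_exp, Real.exp_lt_one_iff]
  have h1 : (2 * π * I * z : ℂ).re = -(2 * π * z.im) := by
    simp
  rw [h1]
  have : 0 < z.im := hz
  have := Real.pi_pos
  have : 0 < 2 * π * z.im := by positivity
  linarith

theorem UH_mul {z : ℂ} (hz : z ∈ UH) (d : ℕ) (hd : 0 < d) : (d : ℂ) * z ∈ UH := by
  have h1 : ((d : ℂ) * z).im = d * z.im := by simp
  change 0 < ((d : ℂ) * z).im
  rw [h1]
  have h2 : 0 < z.im := hz
  positivity

theorem wf_diff (hQ : QsStmt) : DifferentiableOn ℂ wf UH := by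
  obtain ⟨hw, -, -, -, -, haq, -, -, -, -⟩ := hQ
  have h1 : DifferentiableOn ℂ (fun z : ℂ => cexp (2 * π * I * z)) UH := by
    fun_prop
  have h2 : DifferentiableOn ℂ (fun z : ℂ => cexp (2 * π * I * z) * aq (cexp (2 * π * I * z))) UH :=
    h1.mul (haq.comp h1 fun z hz => UH_exp hz)
  exact h2.congr fun z hz => hw z hz

theorem wf_ne (hQ : QsStmt) {z : ℂ} (hz : z ∈ UH) : wf z ≠ 0 := by
  obtain ⟨hw, -, -, -, -, -, hne, -, -, -⟩ := hQ
  rw [hw z hz]
  refine mul_ne_zero (Complex.exp_ne_zero _) (hne _ ?_)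
  simpa using UH_exp hz

theorem wf_sf (z : ℂ) : wf z = (sf z ^ 2)⁻¹ := by
  rw [wf, sf, ← inv_pow, inv_div]

theorem sf_ne (hQ : QsStmt) {z : ℂ} (hz : z ∈ UH) : sf z ≠ 0 := by
  intro h
  apply wf_ne hQ hz
  rw [wf_sf, h]
  simp

theorem sf_diff (hQ : QsStmt) : DifferentiableOn ℂ sf UH := by
  obtain ⟨-, hs, hE, hEne, -, -, -, -, -, -⟩ := hQ
  have h1 : DifferentiableOn ℂ (fun z : ℂ => cexp (2 * π * I * z)) UH := by
    fun_prop
  have h3 : ∀ k : ℕ, 0 < k → ∀ z ∈ UH, cexp (2 * π * I * z) ^ k ∈ Metric.ball (0 : ℂ) 1 := by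
    intro k hk z hz
    have := UH_exp hz
    rw [Metric.mem_ball, dist_zero_right] at this ⊢
    rw [norm_pow]
    exact pow_lt_one₀ (norm_nonneg _) this hk.ne'
  have hp : ∀ k : ℕ, 0 < k → DifferentiableOn ℂ (fun z : ℂ => Eu (cexp (2 * π * I * z) ^ k)) UH := by
    intro k hk
    exact hE.comp (h1.pow k) fun z hz => h3 k hk z hz
  have hp1 : DifferentiableOn ℂ (fun z : ℂ => Eu (cexp (2 * π * I * z))) UH :=
    hE.comp h1 fun z hz => UH_exp hz
  have h0 : DifferentiableOn ℂ (fun z : ℂ => cexp (-(π * I * z))) UH := by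
    fun_prop
  have h4 := h0.mul (((hp 2 (by norm_num)).mul (hp 13 (by norm_num))).div
    (hp1.mul (hp 26 (by norm_num))) (fun z hz => by
      refine mul_ne_zero (hEne _ ?_) (hEne _ ?_)
      · simpa using UH_exp hz
      · simpa using h3 26 (by norm_num) z hz))
  exact h4.congr fun z hz => hs z hz

/-- the logarithmic derivative of `wf` -/
noncomputable def vv (z : ℂ) : ℂ := deriv wf z / wf z

theorem wf_hasDeriv (hQ : QsStmt) {z : ℂ} (hz : z ∈ UH) : HasDerivAt wf (wf z * vv z) z := by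
  have h1 := ((wf_diff hQ).differentiableAt (UH_open.mem_nhds hz)).hasDerivAt
  have h2 : wf z * vv z = deriv wf z := by
    have := wf_ne hQ hz
    rw [vv]
    field_simp
  rw [h2]
  exact h1

theorem sf_hasDeriv (hQ : QsStmt) {z : ℂ} (hz : z ∈ UH) :
    HasDerivAt sf (sf z * (-(vv z) / 2)) z := by
  have h1 := ((sf_diff hQ).differentiableAt (UH_open.mem_nhds hz)).hasDerivAt
  have h2 := (h1.pow 2).mul (wf_hasDeriv hQ hz)
  have h3 : (sf ^ 2 * wf) =ᶠ[𝓝 z] fun _ => (1 : ℂ) := by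
    filter_upwards [UH_open.mem_nhds hz] with y hy
    simp only [Pi.mul_apply, Pi.pow_apply]
    rw [wf_sf, mul_inv_cancel₀]
    exact pow_ne_zero 2 (sf_ne hQ hy)
  have h4 := h2.congr_of_eventuallyEq h3.symm
  have h5 := h4.unique (hasDerivAt_const z (1 : ℂ))
  have hs := sf_ne hQ hz
  have hw := wf_ne hQ hz
  have h6 : deriv sf z = sf z * (-(vv z) / 2) := by
    simp only [Pi.pow_apply] at h5
    have h7 : (sf z * wf z) * (2 * deriv sf z + sf z * vv z) = 0 := by
      rw [← h5]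
      push_cast
      ring
    have h8 := (mul_eq_zero.mp h7).resolve_left (mul_ne_zero hs hw)
    linear_combination (1 / 2 : ℂ) * h8
  rw [← h6]
  exact h1

theorem vv_diff (hQ : QsStmt) {z : ℂ} (hz : z ∈ UH) : DifferentiableAt ℂ vv z := by
  have h1 : DifferentiableOn ℂ (deriv wf) UH := (wf_diff hQ).deriv UH_open
  exact (h1.differentiableAt (UH_open.mem_nhds hz)).div
    ((wf_diff hQ).differentiableAt (UH_open.mem_nhds hz)) (wf_ne hQ hz)

theorem fricke_w (hI : Inv26Stmt) {z : ℂ} (hz : z ∈ UH) : wf (-1 / (26 * z)) = wf z := by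
  have h := hI 26 0 (-1) 1 0 (by norm_num) (by norm_num) (by norm_num) z hz
  have h1 : Wact 26 0 (-1) 1 0 z = -1 / (26 * z) := by
    simp [Wact]
  rw [h1] at h
  exact h.2.1 (Or.inr rfl)

theorem fricke_mem' (hI : Inv26Stmt) {z : ℂ} (hz : z ∈ UH) : -1 / (26 * z) ∈ UH := by
  have h := hI 26 0 (-1) 1 0 (by norm_num) (by norm_num) (by norm_num) z hz
  have h1 : Wact 26 0 (-1) 1 0 z = -1 / (26 * z) := by
    simp [Wact]
  rw [h1] at h
  exact h.1

theorem UH_ne {z : ℂ} (hz : z ∈ UH) : z ≠ 0 := by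
  rintro rfl
  simp [UH] at hz

theorem fricke_hasDeriv {z : ℂ} (hz : z ∈ UH) :
    HasDerivAt (fun z : ℂ => -1 / (26 * z)) (1 / (26 * z ^ 2)) z := by
  have hz0 := UH_ne hz
  have h1 : HasDerivAt (fun z : ℂ => 26 * z) 26 z := by
    simpa using (hasDerivAt_id z).const_mul (26 : ℂ)
  have h2 := (hasDerivAt_const z (-1 : ℂ)).div h1 (mul_ne_zero (by norm_num) hz0)
  have h3 : (1 / (26 * z ^ 2) : ℂ) = (0 * (26 * z) - -1 * 26) / (26 * z) ^ 2 := by
    field_simp
    norm_num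
  rw [h3]
  exact h2

theorem fricke_v (hQ : QsStmt) (hI : Inv26Stmt) {z : ℂ} (hz : z ∈ UH) :
    vv (-1 / (26 * z)) = 26 * z ^ 2 * vv z := by
  have hz0 := UH_ne hz
  have h1 := (wf_hasDeriv hQ (fricke_mem' hI hz)).comp z (fricke_hasDeriv hz)
  have h2 : (wf ∘ fun z : ℂ => -1 / (26 * z)) =ᶠ[𝓝 z] wf := by
    filter_upwards [UH_open.mem_nhds hz] with y hy
    exact fricke_w hI hy
  have h3 := (h1.congr_of_eventuallyEq h2.symm).unique (wf_hasDeriv hQ hz)
  rw [fricke_w hI hz] at h3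
  have hw := wf_ne hQ hz
  generalize vv (-1 / (26 * z)) = A at h3 ⊢
  field_simp at h3
  linear_combination h3

theorem fricke_v' (hQ : QsStmt) (hI : Inv26Stmt) {z : ℂ} (hz : z ∈ UH) :
    deriv vv (-1 / (26 * z)) = 26 * z ^ 2 * (52 * z * vv z + 26 * z ^ 2 * deriv vv z) := by
  have hz0 := UH_ne hz
  have h1 := (vv_diff hQ (fricke_mem' hI hz)).hasDerivAt.comp z (fricke_hasDeriv hz)
  have h2 : (vv ∘ fun z : ℂ => -1 / (26 * z)) =ᶠ[𝓝 z] fun z => 26 * z ^ 2 * vv z := by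
    filter_upwards [UH_open.mem_nhds hz] with y hy
    exact fricke_v hQ hI hy
  have h3 : HasDerivAt (fun z => 26 * z ^ 2 * vv z)
      (52 * z * vv z + 26 * z ^ 2 * deriv vv z) z := by
    have h4 : HasDerivAt (fun z : ℂ => 26 * z ^ 2) (52 * z) z := by
      have h6 := (hasDerivAt_pow 2 z).const_mul (26 : ℂ)
      have h7 : (52 * z : ℂ) = 26 * (((2 : ℕ) : ℂ) * z ^ (2 - 1)) := by
        norm_num
        ring
      rw [h7]
      exact h6
    exact h4.mul (vv_diff hQ hz).hasDerivAt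
  have h5 := (h1.congr_of_eventuallyEq h2.symm).unique h3
  generalize deriv vv (-1 / (26 * z)) = A at h5 ⊢
  field_simp at h5
  linear_combination h5

end Pool.Agent.H65.Pi
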