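/-
Module EV of project PI (MP_e49510_nt), second part: the second derivative of the modular
equation at the fixed point.
-/
import Pool.Agent.H65.Pi.EV1

set_option autoImplicit false

namespace Pool.Agent.H65.Pi

open Complex Filter Asymptotics Pool.Agent.H22.Pi
open scoped Real Topology

theorem mul_hasDeriv (k : ℕ) (z : ℂ) : HasDerivAt (fun z : ℂ => (k : ℂ) * z) (k : ℂ) z := by
  simpa using (hasDerivAt_id z).const_mul (k : ℂ)

/-- derivative of `s(z) s(kz)` -/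
theorem P_hasDeriv (hQ : QsStmt) (k : ℕ) (hk : 0 < k) {z : ℂ} (hz : z ∈ UH) :
    HasDerivAt (fun z => sf z * sf (k * z))
      (sf z * sf (k * z) * (-(vv z + k * vv (k * z)) / 2)) z := by
  have h1 := (sf_hasDeriv hQ (UH_mul hz k hk)).comp z (mul_hasDeriv k z)
  have h2 := (sf_hasDeriv hQ hz).mul h1
  have h3 : sf z * sf (k * z) * (-(vv z + k * vv (k * z)) / 2) =
      sf z * (-(vv z) / 2) * (sf ∘ fun z : ℂ => (k : ℂ) * z) z +
        sf z * (sf (k * z) * (-(vv (k * z)) / 2) * k) := by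
    simp only [Function.comp]
    ring
  rw [h3]
  exact h2

/-- derivative of `s(z) / s(kz)` -/
theorem Q_hasDeriv (hQ : QsStmt) (k : ℕ) (hk : 0 < k) {z : ℂ} (hz : z ∈ UH) :
    HasDerivAt (fun z => sf z / sf (k * z))
      (sf z / sf (k * z) * (-(vv z - k * vv (k * z)) / 2)) z := by
  have hne := sf_ne hQ (UH_mul hz k hk)
  have h1 := (sf_hasDeriv hQ (UH_mul hz k hk)).comp z (mul_hasDeriv k z)
  have h2 := (sf_hasDeriv hQ hz).div h1 hne
  have h3 : sf z / sf (k * z) * (-(vv z - k * vv (k * z)) / 2) =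
      (sf z * (-(vv z) / 2) * (sf ∘ fun z : ℂ => (k : ℂ) * z) z -
        sf z * (sf (k * z) * (-(vv (k * z)) / 2) * k)) / (sf ∘ fun z : ℂ => (k : ℂ) * z) z ^ 2 := by
    simp only [Function.comp]
    field_simp
    ring
  rw [h3]
  exact h2

/-- derivative of `F + 1/F` -/
theorem addinv_hasDeriv {F : ℂ → ℂ} {z L : ℂ} (h : HasDerivAt F (F z * L) z) (hF : F z ≠ 0) :
    HasDerivAt (fun z => F z + (F z)⁻¹) ((F z - (F z)⁻¹) * L) z := by
  have h1 := h.add (h.inv hF)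
  have h2 : (F z - (F z)⁻¹) * L = F z * L + -(F z * L) / F z ^ 2 := by
    field_simp
    ring
  rw [h2]
  exact h1

/-- derivative of `F - 1/F` -/
theorem subinv_hasDeriv {F : ℂ → ℂ} {z L : ℂ} (h : HasDerivAt F (F z * L) z) (hF : F z ≠ 0) :
    HasDerivAt (fun z => F z - (F z)⁻¹) ((F z + (F z)⁻¹) * L) z := by
  have h1 := h.sub (h.inv hF)
  have h2 : (F z + (F z)⁻¹) * L = F z * L - -(F z * L) / F z ^ 2 := by
    field_simp
    ring
  rw [h2]
  exact h1

theorem pf_hasDeriv (hQ : QsStmt) (k : ℕ) (hk : 0 < k) {z : ℂ} (hz : z ∈ UH) :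
    HasDerivAt (pf k) ((sf z * sf (k * z) - (sf z * sf (k * z))⁻¹) *
      (-(vv z + k * vv (k * z)) / 2)) z :=
  addinv_hasDeriv (P_hasDeriv hQ k hk hz) (mul_ne_zero (sf_ne hQ hz) (sf_ne hQ (UH_mul hz k hk)))

theorem rf_eq (k : ℕ) (z : ℂ) : rf k z = sf z / sf (k * z) + (sf z / sf (k * z))⁻¹ := by
  rw [rf, inv_div]

theorem rf_hasDeriv (hQ : QsStmt) (k : ℕ) (hk : 0 < k) {z : ℂ} (hz : z ∈ UH) :
    HasDerivAt (rf k) ((sf z / sf (k * z) - (sf z / sf (k * z))⁻¹) *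
      (-(vv z - k * vv (k * z)) / 2)) z := by
  have h := addinv_hasDeriv (Q_hasDeriv hQ k hk hz)
    (div_ne_zero (sf_ne hQ hz) (sf_ne hQ (UH_mul hz k hk)))
  have e : rf k = fun z => sf z / sf (k * z) + (sf z / sf (k * z))⁻¹ := by
    funext z
    exact rf_eq k z
  rw [e]
  exact h

/-- The second derivative of the modular equation at the point `z1 = z0/k`. -/
theorem key (hQ : QsStmt) (hI : Inv26Stmt) (k : ℕ) (hk : 0 < k) (z0 : ℂ) (hz0 : z0 ∈ UH)
    (h26 : 26 * z0 ^ 2 = -(k : ℂ)) (α β : ℂ → ℂ)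
    (hα : DifferentiableAt ℂ α (z0 / k)) (hβ : DifferentiableAt ℂ β (z0 / k))
    (hrel : ∀ z ∈ UH, α z * deriv (pf k) z = β z * deriv (rf k) z)
    (hs : sf (z0 / k) = sf z0) :
    α (z0 / k) * ((wf z0)⁻¹ - wf z0) * (deriv vv z0 + vv z0 / z0) =
      -2 * β (z0 / k) * vv z0 ^ 2 := by
  have hkc : (k : ℂ) ≠ 0 := by exact_mod_cast hk.ne'
  have hz0' := UH_ne hz0
  -- the point z1
  have hfr : -1 / (26 * z0) = z0 / k := by
    rw [div_eq_div_iff (mul_ne_zero (by norm_num) hz0') hkc]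
    linear_combination -h26
  have hz1 : z0 / k ∈ UH := by
    rw [← hfr]
    exact fricke_mem' hI hz0
  have hkz : (k : ℂ) * (z0 / k) = z0 := by field_simp
  have hv1 : vv (z0 / k) = -(k : ℂ) * vv z0 := by
    rw [← hfr, fricke_v hQ hI hz0, h26]
  have hv1' : deriv vv (z0 / k) = -(k : ℂ) * (52 * z0 * vv z0 + -(k : ℂ) * deriv vv z0) := by
    rw [← hfr, fricke_v' hQ hI hz0, h26]
  -- the identity on the upper half plane
  have hid : ∀ z ∈ UH, (α z * (sf z * sf (k * z) - (sf z * sf (k * z))⁻¹)) *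
      (vv z + k * vv (k * z)) =
      (sf z / sf (k * z) - (sf z / sf (k * z))⁻¹) * (β z * (vv z - k * vv (k * z))) := by
    intro z hz
    have h := hrel z hz
    rw [(pf_hasDeriv hQ k hk hz).deriv, (rf_hasDeriv hQ k hk hz).deriv] at h
    linear_combination (-2 : ℂ) * h
  -- derivatives at z1
  have hPne : sf (z0 / k) * sf (k * (z0 / k)) ≠ 0 :=
    mul_ne_zero (sf_ne hQ hz1) (sf_ne hQ (UH_mul hz1 k hk))
  have hQne : sf (z0 / k) / sf (k * (z0 / k)) ≠ 0 :=
    div_ne_zero (sf_ne hQ hz1) (sf_ne hQ (UH_mul hz1 k hk))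
  have hvk : HasDerivAt (fun z : ℂ => vv (k * z)) (deriv vv (k * (z0 / k)) * k) (z0 / k) :=
    (vv_diff hQ (UH_mul hz1 k hk)).hasDerivAt.comp (z0 / k) (mul_hasDeriv k (z0 / k))
  have hv : HasDerivAt vv (deriv vv (z0 / k)) (z0 / k) := (vv_diff hQ hz1).hasDerivAt
  have hf1 : DifferentiableAt ℂ (fun z => α z * (sf z * sf (k * z) - (sf z * sf (k * z))⁻¹))
      (z0 / k) :=
    hα.mul (subinv_hasDeriv (P_hasDeriv hQ k hk hz1) hPne).differentiableAt
  have hf2 : HasDerivAt (fun z => vv z + k * vv (k * z))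
      (deriv vv (z0 / k) + k * (deriv vv (k * (z0 / k)) * k)) (z0 / k) :=
    hv.add (hvk.const_mul (k : ℂ))
  have hg1 := subinv_hasDeriv (Q_hasDeriv hQ k hk hz1) hQne
  have hg2 : DifferentiableAt ℂ (fun z => β z * (vv z - k * vv (k * z))) (z0 / k) :=
    hβ.mul (hv.sub (hvk.const_mul (k : ℂ))).differentiableAt
  have hL := hf1.hasDerivAt.mul hf2
  have hR := hg1.mul hg2.hasDerivAt
  have hev : ((fun z => α z * (sf z * sf (k * z) - (sf z * sf (k * z))⁻¹)) *
      fun z => vv z + k * vv (k * z)) =ᶠ[𝓝 (z0 / k)]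
      ((fun z => sf z / sf (k * z) - (sf z / sf (k * z))⁻¹) *
        fun z => β z * (vv z - k * vv (k * z))) := by
    filter_upwards [UH_open.mem_nhds hz1] with z hz
    exact hid z hz
  have hfin := hL.unique (hR.congr_of_eventuallyEq hev)
  simp only [hkz, hs] at hfin
  have hsne := sf_ne hQ hz0
  have hw : wf z0 = (sf z0 ^ 2)⁻¹ := wf_sf z0
  have hQ1 : sf z0 / sf z0 = 1 := div_self hsne
  have hP1 : sf z0 * sf z0 = (wf z0)⁻¹ := by
    rw [hw, inv_inv]
    ring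
  rw [hQ1, hP1, inv_inv, hv1, hv1'] at hfin
  generalize deriv vv z0 = v' at hfin ⊢
  generalize vv z0 = v at hfin ⊢
  generalize (wf z0)⁻¹ = u at hfin ⊢
  generalize wf z0 = w at hfin ⊢
  generalize α (z0 / k) = a at hfin ⊢
  generalize β (z0 / k) = b at hfin ⊢
  have h1 : a * (u - w) * (-(k : ℂ) * (52 * z0 * v + -(k : ℂ) * v') + k * (v' * k)) =
      (1 + 1) * (-(-(k : ℂ) * v - k * v) / 2) * (b * (-(k : ℂ) * v - k * v)) := by
    rw [inv_one] at hfin
    linear_combination hfin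
  have h2 : (2 * (k : ℂ) ^ 2) * (a * (u - w) * (v' + v / z0) + 2 * b * v ^ 2) = 0 := by
    have h3 : v / z0 = -(26 * z0 * v) / k := by
      rw [div_eq_div_iff hz0' hkc]
      linear_combination v * h26
    rw [h3]
    have h4 : (2 * (k : ℂ) ^ 2) * (a * (u - w) * (v' + -(26 * z0 * v) / k) + 2 * b * v ^ 2) =
        a * (u - w) * (2 * k ^ 2 * v' - 52 * k * z0 * v) + 4 * k ^ 2 * b * v ^ 2 := by
      field_simp
      ring
    rw [h4]
    linear_combination h1
  have h3 := (mul_eq_zero.mp h2).resolve_left (mul_ne_zero two_ne_zero (pow_ne_zero 2 hkc))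
  linear_combination h3

end Pool.Agent.H65.Pi
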