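/-
Module EV of project PI (MP_e49510_nt), third part: the values at the fixed point.
-/
import Pool.Agent.H65.Pi.EV2

set_option autoImplicit false

namespace Pool.Agent.H65.Pi

open Complex Filter Asymptotics Pool.Agent.H22.Pi
open scoped Real Topology

theorem small_ne (w : ℂ) (hw : ‖w‖ < 1 / 8) (c : ℝ) (hc : |c| ≤ 2) : w ^ 2 - c * w + 1 ≠ 0 := by
  intro h
  have h1 : (1 : ℂ) = c * w - w ^ 2 := by linear_combination h
  have h2 : ‖(1 : ℂ)‖ ≤ ‖(c : ℂ) * w‖ + ‖w ^ 2‖ := by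
    conv_lhs => rw [h1]
    exact norm_sub_le _ _
  rw [norm_one, norm_mul, norm_pow, Complex.norm_real, Real.norm_eq_abs] at h2
  have h3 : 0 ≤ ‖w‖ := norm_nonneg w
  nlinarith [abs_nonneg c]

theorem point_fr {k : ℕ} (hk : 0 < k) {z0 : ℂ} (hz0 : z0 ∈ UH) (h26 : 26 * z0 ^ 2 = -(k : ℂ)) :
    -1 / (26 * z0) = z0 / k := by
  have hkc : (k : ℂ) ≠ 0 := by exact_mod_cast hk.ne'
  rw [div_eq_div_iff (mul_ne_zero (by norm_num) (UH_ne hz0)) hkc]
  linear_combination -h26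

theorem s_pm (hQ : QsStmt) (hI : Inv26Stmt) {k : ℕ} (hk : 0 < k) {z0 : ℂ} (hz0 : z0 ∈ UH)
    (h26 : 26 * z0 ^ 2 = -(k : ℂ)) : sf (z0 / k) = sf z0 ∨ sf (z0 / k) = -sf z0 := by
  have h1 := fricke_w hI hz0
  rw [point_fr hk hz0 h26, wf_sf, wf_sf] at h1
  exact sq_eq_sq_iff_eq_or_eq_neg.mp (inv_injective h1)

theorem point_mem (hI : Inv26Stmt) {k : ℕ} (hk : 0 < k) {z0 : ℂ} (hz0 : z0 ∈ UH)
    (h26 : 26 * z0 ^ 2 = -(k : ℂ)) : z0 / k ∈ UH := by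
  rw [← point_fr hk hz0 h26]
  exact fricke_mem' hI hz0

/-- the values of `p` and `r` at the fixed point -/
theorem pr_plus (hQ : QsStmt) {k : ℕ} (hk : 0 < k) {z0 : ℂ} (hz0 : z0 ∈ UH)
    (hs : sf (z0 / k) = sf z0) :
    pf k (z0 / k) = (wf z0)⁻¹ + wf z0 ∧ rf k (z0 / k) = 2 := by
  have hkc : (k : ℂ) ≠ 0 := by exact_mod_cast hk.ne'
  have hkz : (k : ℂ) * (z0 / k) = z0 := by field_simp
  have hsne := sf_ne hQ hz0
  have hw : wf z0 = (sf z0 ^ 2)⁻¹ := wf_sf z0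
  constructor
  · rw [pf, hkz, hs, hw, inv_inv]
    ring
  · rw [rf, hkz, hs, div_self hsne]
    norm_num

theorem pr_minus (hQ : QsStmt) {k : ℕ} (hk : 0 < k) {z0 : ℂ} (hz0 : z0 ∈ UH)
    (hs : sf (z0 / k) = -sf z0) :
    pf k (z0 / k) = -((wf z0)⁻¹ + wf z0) ∧ rf k (z0 / k) = -2 := by
  have hkc : (k : ℂ) ≠ 0 := by exact_mod_cast hk.ne'
  have hkz : (k : ℂ) * (z0 / k) = z0 := by field_simp
  have hsne := sf_ne hQ hz0
  have hw : wf z0 = (sf z0 ^ 2)⁻¹ := wf_sf z0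
  constructor
  · rw [pf, hkz, hs, hw, inv_inv]
    have : (-sf z0 * sf z0)⁻¹ = -(sf z0 ^ 2)⁻¹ := by
      rw [← inv_neg]
      congr 1
      ring
    rw [this]
    ring
  · rw [rf, hkz, hs, neg_div, div_self hsne, div_neg, div_self hsne]
    norm_num

theorem point3 (hQ : QsStmt) (hI : Inv26Stmt) (h3 : Mod3Stmt) {z0 : ℂ} (hz0 : z0 ∈ UH)
    (h26 : 26 * z0 ^ 2 = -((3 : ℕ) : ℂ)) (hw : ‖wf z0‖ < 1 / 8) :
    sf (z0 / (3 : ℕ)) = sf z0 ∧ wf z0 ^ 2 - 11 * wf z0 + 1 = 0 := by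
  have hk : 0 < 3 := by norm_num
  have hm := h3 _ (point_mem hI hk hz0 h26)
  have hwne := wf_ne hQ hz0
  rcases s_pm hQ hI hk hz0 h26 with hs | hs
  · refine ⟨hs, ?_⟩
    obtain ⟨hp, hr⟩ := pr_plus hQ hk hz0 hs
    rw [hp, hr] at hm
    have h1 : wf z0 * (wf z0)⁻¹ = 1 := mul_inv_cancel₀ hwne
    linear_combination wf z0 * hm - h1
  · exfalso
    obtain ⟨hp, hr⟩ := pr_minus hQ hk hz0 hs
    rw [hp, hr] at hm
    have h1 : wf z0 * (wf z0)⁻¹ = 1 := mul_inv_cancel₀ hwne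
    apply small_ne (wf z0) hw 1 (by norm_num)
    push_cast
    linear_combination -wf z0 * hm - h1

theorem point5 (hQ : QsStmt) (hI : Inv26Stmt) (h5 : Mod5Stmt) {z0 : ℂ} (hz0 : z0 ∈ UH)
    (h26 : 26 * z0 ^ 2 = -((5 : ℕ) : ℂ)) (hw : ‖wf z0‖ < 1 / 8) :
    sf (z0 / (5 : ℕ)) = sf z0 ∧ wf z0 ^ 2 - 18 * wf z0 + 1 = 0 := by
  have hk : 0 < 5 := by norm_num
  have hm := h5 _ (point_mem hI hk hz0 h26)
  have hwne := wf_ne hQ hz0
  have h1 : wf z0 * (wf z0)⁻¹ = 1 := mul_inv_cancel₀ hwne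
  rcases s_pm hQ hI hk hz0 h26 with hs | hs
  · refine ⟨hs, ?_⟩
    obtain ⟨hp, hr⟩ := pr_plus hQ hk hz0 hs
    rw [hp, hr] at hm
    have h2 : ((wf z0)⁻¹ + wf z0 - 2) * ((wf z0)⁻¹ + wf z0 - 18) = 0 := by
      linear_combination hm
    rcases mul_eq_zero.mp h2 with h | h
    · exfalso
      apply small_ne (wf z0) hw 2 (by norm_num)
      push_cast
      linear_combination wf z0 * h - h1
    · linear_combination wf z0 * h - h1
  · exfalso
    obtain ⟨hp, hr⟩ := pr_minus hQ hk hz0 hs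
    rw [hp, hr] at hm
    have h2 : ((wf z0)⁻¹ + wf z0) ^ 2 = 0 := by
      linear_combination hm
    have h3 : (wf z0)⁻¹ + wf z0 = 0 := pow_eq_zero_iff (two_ne_zero) |>.mp h2
    apply small_ne (wf z0) hw 0 (by norm_num)
    push_cast
    linear_combination wf z0 * h3 - h1

theorem key3 (hQ : QsStmt) (hI : Inv26Stmt) (h3 : Mod3Stmt) {z0 : ℂ} (hz0 : z0 ∈ UH)
    (h26 : 26 * z0 ^ 2 = -((3 : ℕ) : ℂ)) (hs : sf (z0 / (3 : ℕ)) = sf z0) :
    ((wf z0)⁻¹ - wf z0) * (deriv vv z0 + vv z0 / z0) = -14 * vv z0 ^ 2 := by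
  have hk : 0 < 3 := by norm_num
  have hz1 := point_mem hI hk hz0 h26
  have hr1 := rf_hasDeriv hQ 3 hk hz1
  have h := key hQ hI 3 hk z0 hz0 h26 (fun _ => 1) (fun z => 2 * rf 3 z + 3)
    (differentiableAt_const _) ((hr1.differentiableAt.const_mul 2).add_const 3) ?_ hs
  · obtain ⟨-, hr⟩ := pr_plus hQ hk hz0 hs
    simp only [hr] at h
    linear_combination h
  · intro z hz
    have hp := pf_hasDeriv hQ 3 hk hz
    have hr := rf_hasDeriv hQ 3 hk hz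
    have h1 := ((hr.pow 2).add (hr.const_mul 3)).add_const 1
    have h2 : pf 3 =ᶠ[𝓝 z] fun y => (rf 3 ^ 2 + fun y => 3 * rf 3 y) y + 1 := by
      filter_upwards [UH_open.mem_nhds hz] with y hy
      simp only [Pi.add_apply, Pi.pow_apply]
      exact h3 y hy
    have h4 := hp.unique (h1.congr_of_eventuallyEq h2)
    rw [hp.deriv, hr.deriv, h4]
    push_cast
    ring

theorem key5 (hQ : QsStmt) (hI : Inv26Stmt) (h5 : Mod5Stmt) {z0 : ℂ} (hz0 : z0 ∈ UH)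
    (h26 : 26 * z0 ^ 2 = -((5 : ℕ) : ℂ)) (hs : sf (z0 / (5 : ℕ)) = sf z0)
    (hw : wf z0 ^ 2 - 18 * wf z0 + 1 = 0) :
    8 * (((wf z0)⁻¹ - wf z0) * (deriv vv z0 + vv z0 / z0)) = -89 * vv z0 ^ 2 := by
  have hk : 0 < 5 := by norm_num
  have hz1 := point_mem hI hk hz0 h26
  have hr1 := rf_hasDeriv hQ 5 hk hz1
  have hp1 := pf_hasDeriv hQ 5 hk hz1
  have hwne := wf_ne hQ hz0
  have h := key hQ hI 5 hk z0 hz0 h26 (fun z => 2 * pf 5 z - 5 * rf 5 z - 10)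
    (fun z => 5 * pf 5 z + 3 * rf 5 z ^ 2 - 13)
    (((hp1.differentiableAt.const_mul 2).sub (hr1.differentiableAt.const_mul 5)).sub_const 10)
    (((hp1.differentiableAt.const_mul 5).add ((hr1.differentiableAt.pow 2).const_mul 3)).sub_const 13)
    ?_ hs
  · obtain ⟨hp, hr⟩ := pr_plus hQ hk hz0 hs
    have hp' : (wf z0)⁻¹ + wf z0 = 18 := by
      field_simp
      linear_combination hw
    rw [hp'] at hp
    simp only [hr, hp] at h
    linear_combination (1 / 2 : ℂ) * h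
  · intro z hz
    have hp := pf_hasDeriv hQ 5 hk hz
    have hr := rf_hasDeriv hQ 5 hk hz
    have h1 := (((((hp.pow 2).sub ((hp.mul hr).const_mul 5)).sub (hp.const_mul 10)).sub
      (hr.pow 3)).add (hr.const_mul 13)).add_const 18
    have h2 : (fun _ : ℂ => (0 : ℂ)) =ᶠ[𝓝 z] fun y =>
        (((((pf 5 ^ 2 - fun y => 5 * (pf 5 * rf 5) y) - fun y => 10 * pf 5 y) - rf 5 ^ 3) +
          fun y => 13 * rf 5 y) : ℂ → ℂ) y + 18 := by
      filter_upwards [UH_open.mem_nhds hz] with y hy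
      simp only [Pi.add_apply, Pi.pow_apply, Pi.sub_apply, Pi.mul_apply]
      rw [← h5 y hy]
      ring
    have h4 := (hasDerivAt_const z (0 : ℂ)).unique (h1.congr_of_eventuallyEq h2)
    rw [hp.deriv, hr.deriv]
    simp only [Nat.cast_ofNat] at h4 ⊢
    linear_combination -h4

end Pool.Agent.H65.Pi
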