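/-
Module EV of project PI (MP_e49510_nt), fourth part: the derivative of the parametrisation.
-/
import Pool.Agent.H65.Pi.EV3

set_option autoImplicit false

namespace Pool.Agent.H65.Pi

open Complex Filter Asymptotics Pool.Agent.H22.Pi
open scoped Real Topology

/-- derivative of the sextic -/
noncomputable def dS6 (w : ℂ) : ℂ := -8 + 16 * w - 54 * w ^ 2 + 32 * w ^ 3 - 40 * w ^ 4 + 6 * w ^ 5

theorem S6_hasDeriv (w : ℂ) : HasDerivAt (fun w : ℂ => S6 w) (dS6 w) w := by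
  have h := ((((((hasDerivAt_const w (1 : ℂ)).sub ((hasDerivAt_id w).const_mul 8)).add
    ((hasDerivAt_pow 2 w).const_mul 8)).sub ((hasDerivAt_pow 3 w).const_mul 18)).add
    ((hasDerivAt_pow 4 w).const_mul 8)).sub ((hasDerivAt_pow 5 w).const_mul 8)).add
    (hasDerivAt_pow 6 w)
  have e : dS6 w = 0 - 8 * 1 + 8 * (((2 : ℕ) : ℂ) * w ^ (2 - 1)) - 18 * (((3 : ℕ) : ℂ) * w ^ (3 - 1)) +
      8 * (((4 : ℕ) : ℂ) * w ^ (4 - 1)) - 8 * (((5 : ℕ) : ℂ) * w ^ (5 - 1)) +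
      ((6 : ℕ) : ℂ) * w ^ (6 - 1) := by
    rw [dS6]
    push_cast
    norm_num
    ring
  rw [e]
  exact h

theorem xf_hasDeriv (hQ : QsStmt) {z : ℂ} (hz : z ∈ UH) (hw : 1 + wf z ^ 2 ≠ 0) :
    HasDerivAt xf (xf z * (vv z * ((1 - wf z ^ 2) / (1 + wf z ^ 2)))) z := by
  have h1 := wf_hasDeriv hQ hz
  have h2 := h1.div ((h1.pow 2).const_add 1) hw
  have e : xf z * (vv z * ((1 - wf z ^ 2) / (1 + wf z ^ 2))) =
      (wf z * vv z * (1 + (wf ^ 2) z) - wf z * (((2 : ℕ) : ℂ) * wf z ^ (2 - 1) * (wf z * vv z))) /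
        (1 + (wf ^ 2) z) ^ 2 := by
    simp only [xf, Pi.pow_apply]
    field_simp
    push_cast
    ring
  rw [e]
  exact h2

theorem Vf_eq (z : ℂ) : Vf z = (2 * π * I)⁻¹ * vv z := by
  rw [Vf, Dz, vv]
  ring

theorem mp_deriv (hQ : QsStmt) (hA : An2Stmt) {z : ℂ} (hz : z ∈ UH) (hw : 1 + wf z ^ 2 ≠ 0)
    (hx : ‖xf z‖ < 1 / 8)
    (hmp : ∀ᶠ y in 𝓝 z, (Gz 0 (xf y)) ^ 2 * S6 (wf y) =
      (Vf y) ^ 2 * (1 - wf y) ^ 2 * (1 + (wf y) ^ 2) ^ 2) :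
    (Gz 0 (xf z)) ^ 2 * S6 (wf z) =
      ((2 * π * I)⁻¹) ^ 2 * (vv z * ((1 - wf z) * (1 + wf z ^ 2))) ^ 2 ∧
    2 * Gz 0 (xf z) * (Gz 1 (xf z) * (vv z * ((1 - wf z ^ 2) / (1 + wf z ^ 2)))) * S6 (wf z) +
      (Gz 0 (xf z)) ^ 2 * (dS6 (wf z) * (wf z * vv z)) =
      ((2 * π * I)⁻¹) ^ 2 * (2 * (vv z * ((1 - wf z) * (1 + wf z ^ 2))) *
        (deriv vv z * ((1 - wf z) * (1 + wf z ^ 2)) + vv z * (-(wf z * vv z) * (1 + wf z ^ 2) +
          (1 - wf z) * (2 * wf z * (wf z * vv z))))) := by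
  have h1 := wf_hasDeriv hQ hz
  have hxf := xf_hasDeriv hQ hz hw
  have hb : xf z ∈ Metric.ball (0 : ℂ) (1 / 8) := by
    rw [Metric.mem_ball, dist_zero_right]
    exact hx
  have hG0 : HasDerivAt (Gz 0) (deriv (Gz 0) (xf z)) (xf z) :=
    ((hA.2.1 0).differentiableAt (Metric.isOpen_ball.mem_nhds hb)).hasDerivAt
  have hG1 := hA.2.2.1 0 (xf z) hx
  have hG : HasDerivAt (fun y => Gz 0 (xf y))
      (Gz 1 (xf z) * (vv z * ((1 - wf z ^ 2) / (1 + wf z ^ 2)))) z := by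
    have h2 := hG0.comp z hxf
    have e : Gz 1 (xf z) * (vv z * ((1 - wf z ^ 2) / (1 + wf z ^ 2))) =
        deriv (Gz 0) (xf z) * (xf z * (vv z * ((1 - wf z ^ 2) / (1 + wf z ^ 2)))) := by
      have hG1' : xf z * deriv (Gz 0) (xf z) = Gz 1 (xf z) := hG1
      rw [← hG1']
      ring
    rw [e]
    exact h2
  have hS : HasDerivAt (fun y => S6 (wf y)) (dS6 (wf z) * (wf z * vv z)) z :=
    (S6_hasDeriv (wf z)).comp z h1
  have hv : HasDerivAt vv (deriv vv z) z := (vv_diff hQ hz).hasDerivAt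
  have hden : HasDerivAt (fun y => 1 + wf y ^ 2) (2 * wf z * (wf z * vv z)) z := by
    have h2 := (h1.pow 2).const_add 1
    have e : 2 * wf z * (wf z * vv z) = ((2 : ℕ) : ℂ) * wf z ^ (2 - 1) * (wf z * vv z) := by
      norm_num
    rw [e]
    exact h2
  have hnum : HasDerivAt (fun y => 1 - wf y) (-(wf z * vv z)) z := h1.const_sub 1
  have hm : HasDerivAt (fun y => (1 - wf y) * (1 + wf y ^ 2))
      (-(wf z * vv z) * (1 + wf z ^ 2) + (1 - wf z) * (2 * wf z * (wf z * vv z))) z :=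
    hnum.mul hden
  have hvm : HasDerivAt (fun y => vv y * ((1 - wf y) * (1 + wf y ^ 2)))
      (deriv vv z * ((1 - wf z) * (1 + wf z ^ 2)) + vv z * (-(wf z * vv z) * (1 + wf z ^ 2) +
          (1 - wf z) * (2 * wf z * (wf z * vv z)))) z := hv.mul hm
  have hev : (fun y => (Gz 0 (xf y)) ^ 2 * S6 (wf y)) =ᶠ[𝓝 z]
      fun y => ((2 * π * I)⁻¹) ^ 2 * (vv y * ((1 - wf y) * (1 + wf y ^ 2))) ^ 2 := by
    filter_upwards [hmp] with y hy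
    rw [hy, Vf_eq]
    ring
  refine ⟨hev.self_of_nhds, ?_⟩
  have hL : HasDerivAt (fun y => (Gz 0 (xf y)) ^ 2 * S6 (wf y))
      (2 * Gz 0 (xf z) * (Gz 1 (xf z) * (vv z * ((1 - wf z ^ 2) / (1 + wf z ^ 2)))) * S6 (wf z) +
      (Gz 0 (xf z)) ^ 2 * (dS6 (wf z) * (wf z * vv z))) z := by
    have h2 := (hG.pow 2).mul hS
    have e : 2 * Gz 0 (xf z) * (Gz 1 (xf z) * (vv z * ((1 - wf z ^ 2) / (1 + wf z ^ 2)))) * S6 (wf z) +
        (Gz 0 (xf z)) ^ 2 * (dS6 (wf z) * (wf z * vv z)) =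
        ((2 : ℕ) : ℂ) * Gz 0 (xf z) ^ (2 - 1) *
          (Gz 1 (xf z) * (vv z * ((1 - wf z ^ 2) / (1 + wf z ^ 2)))) * S6 (wf z) +
        (Gz 0 (xf z)) ^ 2 * (dS6 (wf z) * (wf z * vv z)) := by
      norm_num
    rw [e]
    exact h2
  have hR : HasDerivAt (fun y => ((2 * π * I)⁻¹) ^ 2 * (vv y * ((1 - wf y) * (1 + wf y ^ 2))) ^ 2)
      (((2 * π * I)⁻¹) ^ 2 * (2 * (vv z * ((1 - wf z) * (1 + wf z ^ 2))) *
        (deriv vv z * ((1 - wf z) * (1 + wf z ^ 2)) + vv z * (-(wf z * vv z) * (1 + wf z ^ 2) +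
          (1 - wf z) * (2 * wf z * (wf z * vv z)))))) z := by
    have h2 := (hvm.pow 2).const_mul (((2 * π * I)⁻¹) ^ 2)
    have e : ((2 : ℕ) : ℂ) * (vv z * ((1 - wf z) * (1 + wf z ^ 2))) ^ (2 - 1) =
        2 * (vv z * ((1 - wf z) * (1 + wf z ^ 2))) := by
      norm_num
    rw [← e]
    exact h2
  exact hL.unique (hR.congr_of_eventuallyEq hev)

/-- the final algebra -/
theorem alg_gen {w v v' z0 c g T S dS y fS m2 ρ τ : ℂ}
    (hw : 1 + w ^ 2 = y * w) (hw0 : w ≠ 0) (hy : y ≠ 0) (hv : v ≠ 0) (hz0 : z0 ≠ 0) (hg : g ≠ 0)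
    (hm2 : m2 ≠ 0) (hS : S = fS * w ^ 3) (hm : ((1 - w) * (1 + w ^ 2)) ^ 2 = m2 * w ^ 3)
    (hbr : -(w * (1 - w ^ 2) * dS) + 4 * ρ * fS * w ^ 4 + 2 * (fS / m2) *
      (w * (1 - w ^ 2) * ((1 - w) * (1 + w ^ 2)) * (-(1 + w ^ 2) + 2 * w * (1 - w))) +
      (2 * (y ^ 2 - 4) * fS / y) * τ * w ^ 4 = 0)
    (hM0 : g ^ 2 * S = c ^ 2 * (v * ((1 - w) * (1 + w ^ 2))) ^ 2)
    (hM1 : 2 * g * (T * (v * ((1 - w ^ 2) / (1 + w ^ 2)))) * S + g ^ 2 * (dS * (w * v)) =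
      c ^ 2 * (2 * (v * ((1 - w) * (1 + w ^ 2))) *
        (v' * ((1 - w) * (1 + w ^ 2)) + v * (-(w * v) * (1 + w ^ 2) +
          (1 - w) * (2 * w * (w * v))))))
    (hK : (1 - w ^ 2) * (v' + v / z0) = 2 * ρ * w * v ^ 2) :
    (2 * (y ^ 2 - 4) * fS / y) ^ 2 * (T + τ * g) ^ 2 =
      4 * m2 * (y ^ 2 - 4) * fS * c ^ 2 / z0 ^ 2 := by
  have h4 : (1 - w ^ 2) ^ 2 = (y ^ 2 - 4) * w ^ 2 := by
    linear_combination (1 + w ^ 2 + y * w) * hw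
  have hM0' : fS * g ^ 2 = m2 * (c ^ 2 * v ^ 2) := by
    have h1 : w ^ 3 * (fS * g ^ 2 - m2 * (c ^ 2 * v ^ 2)) = 0 := by
      rw [hS] at hM0
      linear_combination hM0 + c ^ 2 * v ^ 2 * hm
    have h2 := (mul_eq_zero.mp h1).resolve_left (pow_ne_zero 3 hw0)
    linear_combination h2
  have hcv : c ^ 2 * v ^ 2 = fS / m2 * g ^ 2 := by
    field_simp
    linear_combination -hM0'
  -- the derivative identity divided by `v`
  have hM1' : 2 * g * T * (1 - w ^ 2) * (fS / y) * w ^ 2 + g ^ 2 * dS * w =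
      c ^ 2 * (2 * ((1 - w) * (1 + w ^ 2)) *
        (v' * ((1 - w) * (1 + w ^ 2)) + v ^ 2 * w * (-(1 + w ^ 2) + 2 * w * (1 - w)))) := by
    have h1 : (1 - w ^ 2) / (1 + w ^ 2) * S = (1 - w ^ 2) * (fS / y) * w ^ 2 := by
      rw [hw, hS]
      field_simp
    have h2 : v * (2 * g * T * (1 - w ^ 2) * (fS / y) * w ^ 2 + g ^ 2 * dS * w -
        c ^ 2 * (2 * ((1 - w) * (1 + w ^ 2)) *
        (v' * ((1 - w) * (1 + w ^ 2)) + v ^ 2 * w * (-(1 + w ^ 2) + 2 * w * (1 - w))))) = 0 := by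
      linear_combination hM1 - 2 * g * T * v * h1
    have h3 := (mul_eq_zero.mp h2).resolve_left hv
    linear_combination h3
  -- the main relation
  have hmain : w * g * ((2 * (y ^ 2 - 4) * fS / y) * (T + τ * g)) =
      -2 * m2 * c ^ 2 * (1 - w ^ 2) * v / z0 := by
    have h1 : w ^ 3 * (w * g * ((2 * (y ^ 2 - 4) * fS / y) * (T + τ * g)) -
        (-2 * m2 * c ^ 2 * (1 - w ^ 2) * v / z0)) = 0 := by
      have h2 : (1 - w ^ 2) * v' = 2 * ρ * w * v ^ 2 - (1 - w ^ 2) * v / z0 := by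
        linear_combination hK
      have h3 : (2 * (y ^ 2 - 4) * fS / y) * w ^ 4 * g * T + g ^ 2 * (w * (1 - w ^ 2) * dS) =
          2 * m2 * c ^ 2 * w ^ 3 * ((1 - w ^ 2) * v') + 2 * (c ^ 2 * v ^ 2) *
          (w * (1 - w ^ 2) * ((1 - w) * (1 + w ^ 2)) * (-(1 + w ^ 2) + 2 * w * (1 - w))) := by
        linear_combination (1 - w ^ 2) * hM1' - 2 * g * T * (fS / y) * w ^ 2 * h4 +
          2 * c ^ 2 * (1 - w ^ 2) * v' * hm
      rw [h2] at h3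
      have h4' : (2 * (y ^ 2 - 4) * fS / y) * w ^ 4 * g * T + g ^ 2 * (w * (1 - w ^ 2) * dS) =
          4 * ρ * m2 * w ^ 4 * (c ^ 2 * v ^ 2) - 2 * m2 * c ^ 2 * w ^ 3 * ((1 - w ^ 2) * v / z0) +
          2 * (c ^ 2 * v ^ 2) *
          (w * (1 - w ^ 2) * ((1 - w) * (1 + w ^ 2)) * (-(1 + w ^ 2) + 2 * w * (1 - w))) := by
        linear_combination h3
      rw [hcv] at h4'
      have h5 : m2 * (fS / m2) = fS := by field_simp
      linear_combination h4' + g ^ 2 * hbr + 4 * ρ * w ^ 4 * g ^ 2 * h5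
    have h2 := (mul_eq_zero.mp h1).resolve_left (pow_ne_zero 3 hw0)
    linear_combination h2
  have hsq : w ^ 2 * g ^ 2 * ((2 * (y ^ 2 - 4) * fS / y) ^ 2 * (T + τ * g) ^ 2 -
      4 * m2 * (y ^ 2 - 4) * fS * c ^ 2 / z0 ^ 2) = 0 := by
    have h1 : w ^ 2 * g ^ 2 * ((2 * (y ^ 2 - 4) * fS / y) ^ 2 * (T + τ * g) ^ 2) =
        4 * m2 ^ 2 * c ^ 2 * (1 - w ^ 2) ^ 2 * (c ^ 2 * v ^ 2) / z0 ^ 2 := by
      have h2 : w ^ 2 * g ^ 2 * ((2 * (y ^ 2 - 4) * fS / y) ^ 2 * (T + τ * g) ^ 2) =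
          (w * g * ((2 * (y ^ 2 - 4) * fS / y) * (T + τ * g))) ^ 2 := by ring
      rw [h2, hmain]
      field_simp
      ring
    rw [mul_sub, h1, h4, hcv]
    field_simp
    ring
  have hne : w ^ 2 * g ^ 2 ≠ 0 := mul_ne_zero (pow_ne_zero 2 hw0) (pow_ne_zero 2 hg)
  have := (mul_eq_zero.mp hsq).resolve_left hne
  linear_combination this

end Pool.Agent.H65.Pi
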