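/-
Module EV of project PI (MP_e49510_nt), final part: the two evaluations.
-/
import Pool.Agent.H65.Pi.EV4
import Pool.Agent.H65.Pi.AN2

set_option autoImplicit false

namespace Pool.Agent.H65.Pi

open Complex Filter Asymptotics Pool.Agent.H22.Pi
open scoped Real Topology

theorem Gz_real (hA1 : An1Stmt) (hA2 : An2Stmt) (j : ℕ) (x : ℝ) (hx0 : 0 ≤ x) (hx : x < 1 / 8) :
    ∃ s : ℝ, Gz j (x : ℂ) = s ∧ 0 ≤ s ∧ (j = 0 → 1 ≤ s) := by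
  have hz : ‖(x : ℂ)‖ < 1 / 8 := by
    rw [Complex.norm_real, Real.norm_of_nonneg hx0]
    exact hx
  have h1 := hA2.1 j (x : ℂ) hz
  have e : (fun N : ℕ => (N : ℂ) ^ j * (aco N : ℂ) * (x : ℂ) ^ N) =
      fun N : ℕ => (((N : ℝ) ^ j * (aco N : ℝ) * x ^ N : ℝ) : ℂ) := by
    funext N
    push_cast
    ring
  have hnn : ∀ N : ℕ, 0 ≤ (N : ℝ) ^ j * (aco N : ℝ) * x ^ N := by
    intro N
    have h2 : (0 : ℝ) ≤ (aco N : ℝ) := by exact_mod_cast hA1.1 N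
    positivity
  refine ⟨∑' N : ℕ, (N : ℝ) ^ j * (aco N : ℝ) * x ^ N, ?_, tsum_nonneg hnn, ?_⟩
  · rw [Gz, e, Complex.ofReal_tsum]
  · intro hj
    subst hj
    rw [e] at h1
    have h2 : Summable (fun N : ℕ => (N : ℝ) ^ 0 * (aco N : ℝ) * x ^ N) :=
      Complex.summable_ofReal.mp h1
    have h3 := h2.le_tsum 0 (fun N _ => hnn N)
    refine le_trans ?_ h3
    rw [hA1.2.1]
    simp

theorem ev_three (hMp : MpStmt) (hI : Inv26Stmt) (h3 : Mod3Stmt) (hA1 : An1Stmt) (hA2 : An2Stmt)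
    (hQ : QsStmt) : 18 * Gz 1 (1 / 11) + 7 * Gz 0 (1 / 11) = ((1089 / (4 * √39 * π) : ℝ) : ℂ) := by
  set y0 : ℝ := √(3 / 26) with hy0
  have hy0sq : y0 ^ 2 = 3 / 26 := Real.sq_sqrt (by norm_num)
  have hy0pos : 0 < y0 := Real.sqrt_pos.mpr (by norm_num)
  have hy : 67 / 200 ≤ y0 := by
    apply Real.le_sqrt_of_sq_le
    norm_num
  obtain ⟨hwn, hxn, hev⟩ := hMp y0 hy
  set z0 : ℂ := I * (y0 : ℂ) with hz0def
  have hz0 : z0 ∈ UH := by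
    change 0 < (I * (y0 : ℂ)).im
    simpa using hy0pos
  have hz0ne : z0 ≠ 0 := UH_ne hz0
  have hz0sq : z0 ^ 2 = -(3 / 26 : ℂ) := by
    rw [hz0def, mul_pow, Complex.I_sq]
    have : ((y0 : ℂ)) ^ 2 = (3 / 26 : ℂ) := by
      rw [← Complex.ofReal_pow, hy0sq]
      push_cast
      ring
    rw [this]
    ring
  have h26 : 26 * z0 ^ 2 = -((3 : ℕ) : ℂ) := by
    rw [hz0sq]
    push_cast
    ring
  obtain ⟨hs, hq⟩ := point3 hQ hI h3 hz0 h26 hwn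
  have hw0 : wf z0 ≠ 0 := wf_ne hQ hz0
  have hw : 1 + wf z0 ^ 2 = 11 * wf z0 := by linear_combination hq
  have hwd : 1 + wf z0 ^ 2 ≠ 0 := by
    rw [hw]
    exact mul_ne_zero (by norm_num) hw0
  have hx0 : xf z0 = ((1 / 11 : ℝ) : ℂ) := by
    rw [xf, hw]
    push_cast
    field_simp
  obtain ⟨hM0, hM1⟩ := mp_deriv hQ hA2 hz0 hwd hxn hev
  obtain ⟨g, hg, hg0, hg1⟩ := Gz_real hA1 hA2 0 (1 / 11) (by norm_num) (by norm_num)
  obtain ⟨T, hT, hT0, -⟩ := Gz_real hA1 hA2 1 (1 / 11) (by norm_num) (by norm_num)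
  have hg1' : 1 ≤ g := hg1 rfl
  have hgne : (g : ℂ) ≠ 0 := by
    exact_mod_cast (by linarith : (0 : ℝ) < g).ne'
  rw [hx0, hg] at hM0 hM1
  rw [hT] at hM1
  have hS : S6 (wf z0) = 416 * wf z0 ^ 3 := by
    rw [S6]
    linear_combination ((1) * wf z0 ^ 0 + (3) * wf z0 ^ 1 + (40) * wf z0 ^ 2 + (3) * wf z0 ^ 3 + (1) * wf z0 ^ 4) * hq
  have hm : ((1 - wf z0) * (1 + wf z0 ^ 2)) ^ 2 = 1089 * wf z0 ^ 3 := by
    linear_combination ((1) * wf z0 ^ 0 + (9) * wf z0 ^ 1 + (101) * wf z0 ^ 2 + (9) * wf z0 ^ 3 + (1) * wf z0 ^ 4) * hq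
  have hv : vv z0 ≠ 0 := by
    intro h
    rw [h, hS] at hM0
    have h1 : (g : ℂ) ^ 2 * (416 * wf z0 ^ 3) ≠ 0 :=
      mul_ne_zero (pow_ne_zero 2 hgne) (mul_ne_zero (by norm_num) (pow_ne_zero 3 hw0))
    apply h1
    rw [hM0]
    ring
  have hK : (1 - wf z0 ^ 2) * (deriv vv z0 + vv z0 / z0) = 2 * (-7 / 1 : ℂ) * wf z0 * vv z0 ^ 2 := by
    have h := key3 hQ hI h3 hz0 h26 hs
    have h1 : wf z0 * (wf z0)⁻¹ = 1 := mul_inv_cancel₀ hw0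
    linear_combination wf z0 * h - (deriv vv z0 + vv z0 / z0) * h1
  have hfin := alg_gen (w := wf z0) (v := vv z0) (v' := deriv vv z0) (z0 := z0)
    (c := (2 * π * I)⁻¹) (g := (g : ℂ)) (T := (T : ℂ)) (S := S6 (wf z0)) (dS := dS6 (wf z0))
    (y := 11) (fS := 416) (m2 := 1089) (ρ := (-7 / 1 : ℂ)) (τ := 7 / 18)
    hw hw0 (by norm_num) hv hz0ne hgne (by norm_num) hS hm
    (by
      rw [dS6]
      linear_combination ((7880/1089) * wf z0 ^ 1 + (71752/1089) * wf z0 ^ 2 + (827326/1089) * wf z0 ^ 3 + (6998/99) * wf z0 ^ 4 + (5018/1089) * wf z0 ^ 5 + (1346/363) * wf z0 ^ 6) * hq)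
    hM0 hM1 hK
  have hc : ((2 * π * I)⁻¹ : ℂ) ^ 2 = -(1 / (4 * (π : ℂ) ^ 2)) := by
    have hpi : (π : ℂ) ≠ 0 := by exact_mod_cast Real.pi_ne_zero
    rw [inv_pow, mul_pow, mul_pow, Complex.I_sq]
    field_simp
    norm_num
  rw [hc, hz0sq] at hfin
  have hpi : (π : ℂ) ≠ 0 := by exact_mod_cast Real.pi_ne_zero
  have hsq : ((18 * T + 7 * g : ℝ) : ℂ) ^ 2 = ((1089 ^ 2 / (624 * π ^ 2) : ℝ) : ℂ) := by
    push_cast
    have h1 : (18 * (T : ℂ) + 7 * g) ^ 2 = 18 ^ 2 * ((T : ℂ) + 7 / 18 * g) ^ 2 := by ring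
    rw [h1]
    field_simp at hfin ⊢
    linear_combination (1 / 936 : ℂ) * hfin
  have hsqR : (18 * T + 7 * g) ^ 2 = 1089 ^ 2 / (624 * π ^ 2) := by exact_mod_cast hsq
  have hval : 18 * T + 7 * g = 1089 / (4 * √39 * π) := by
    have hp : 0 ≤ 18 * T + 7 * g := by linarith
    have hq' : (0 : ℝ) ≤ 1089 / (4 * √39 * π) := by positivity
    rw [← Real.sqrt_sq hp, ← Real.sqrt_sq hq', hsqR]
    congr 1
    have h1 : √39 ^ 2 = (39 : ℝ) := Real.sq_sqrt (by norm_num)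
    have h2 := Real.pi_ne_zero
    rw [div_pow, mul_pow]
    first
      | (rw [mul_pow, h1]; norm_num)
      | rw [h1]
  have hz : ((1 / 11 : ℝ) : ℂ) = (1 / 11 : ℂ) := by push_cast; ring
  rw [hz] at hg hT
  rw [hg, hT, ← hval]
  push_cast
  ring

theorem ev_five (hMp : MpStmt) (hI : Inv26Stmt) (h5 : Mod5Stmt) (hA1 : An1Stmt) (hA2 : An2Stmt)
    (hQ : QsStmt) : 40 * Gz 1 (1 / 18) + 13 * Gz 0 (1 / 18) = ((81 / (√2 * π) : ℝ) : ℂ) := by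
  set y0 : ℝ := √(5 / 26) with hy0
  have hy0sq : y0 ^ 2 = 5 / 26 := Real.sq_sqrt (by norm_num)
  have hy0pos : 0 < y0 := Real.sqrt_pos.mpr (by norm_num)
  have hy : 67 / 200 ≤ y0 := by
    apply Real.le_sqrt_of_sq_le
    norm_num
  obtain ⟨hwn, hxn, hev⟩ := hMp y0 hy
  set z0 : ℂ := I * (y0 : ℂ) with hz0def
  have hz0 : z0 ∈ UH := by
    change 0 < (I * (y0 : ℂ)).im
    simpa using hy0pos
  have hz0ne : z0 ≠ 0 := UH_ne hz0
  have hz0sq : z0 ^ 2 = -(5 / 26 : ℂ) := by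
    rw [hz0def, mul_pow, Complex.I_sq]
    have : ((y0 : ℂ)) ^ 2 = (5 / 26 : ℂ) := by
      rw [← Complex.ofReal_pow, hy0sq]
      push_cast
      ring
    rw [this]
    ring
  have h26 : 26 * z0 ^ 2 = -((5 : ℕ) : ℂ) := by
    rw [hz0sq]
    push_cast
    ring
  obtain ⟨hs, hq⟩ := point5 hQ hI h5 hz0 h26 hwn
  have hw0 : wf z0 ≠ 0 := wf_ne hQ hz0
  have hw : 1 + wf z0 ^ 2 = 18 * wf z0 := by linear_combination hq
  have hwd : 1 + wf z0 ^ 2 ≠ 0 := by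
    rw [hw]
    exact mul_ne_zero (by norm_num) hw0
  have hx0 : xf z0 = ((1 / 18 : ℝ) : ℂ) := by
    rw [xf, hw]
    push_cast
    field_simp
  obtain ⟨hM0, hM1⟩ := mp_deriv hQ hA2 hz0 hwd hxn hev
  obtain ⟨g, hg, hg0, hg1⟩ := Gz_real hA1 hA2 0 (1 / 18) (by norm_num) (by norm_num)
  obtain ⟨T, hT, hT0, -⟩ := Gz_real hA1 hA2 1 (1 / 18) (by norm_num) (by norm_num)
  have hg1' : 1 ≤ g := hg1 rfl
  have hgne : (g : ℂ) ≠ 0 := by
    exact_mod_cast (by linarith : (0 : ℝ) < g).ne'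
  rw [hx0, hg] at hM0 hM1
  rw [hT] at hM1
  have hS : S6 (wf z0) = 3328 * wf z0 ^ 3 := by
    rw [S6]
    linear_combination ((1) * wf z0 ^ 0 + (10) * wf z0 ^ 1 + (187) * wf z0 ^ 2 + (10) * wf z0 ^ 3 + (1) * wf z0 ^ 4) * hq
  have hm : ((1 - wf z0) * (1 + wf z0 ^ 2)) ^ 2 = 5184 * wf z0 ^ 3 := by
    linear_combination ((1) * wf z0 ^ 0 + (16) * wf z0 ^ 1 + (290) * wf z0 ^ 2 + (16) * wf z0 ^ 3 + (1) * wf z0 ^ 4) * hq
  have hv : vv z0 ≠ 0 := by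
    intro h
    rw [h, hS] at hM0
    have h1 : (g : ℂ) ^ 2 * (3328 * wf z0 ^ 3) ≠ 0 :=
      mul_ne_zero (pow_ne_zero 2 hgne) (mul_ne_zero (by norm_num) (pow_ne_zero 3 hw0))
    apply h1
    rw [hM0]
    ring
  have hK : (1 - wf z0 ^ 2) * (deriv vv z0 + vv z0 / z0) = 2 * (-89 / 16 : ℂ) * wf z0 * vv z0 ^ 2 := by
    have h := key5 hQ hI h5 hz0 h26 hs hq
    have h1 : wf z0 * (wf z0)⁻¹ = 1 := mul_inv_cancel₀ hw0
    linear_combination (1 / 8 : ℂ) * wf z0 * h - (deriv vv z0 + vv z0 / z0) * h1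
  have hfin := alg_gen (w := wf z0) (v := vv z0) (v' := deriv vv z0) (z0 := z0)
    (c := (2 * π * I)⁻¹) (g := (g : ℂ)) (T := (T : ℂ)) (S := S6 (wf z0)) (dS := dS6 (wf z0))
    (y := 18) (fS := 3328) (m2 := 5184) (ρ := (-89 / 16 : ℂ)) (τ := 13 / 40)
    hw hw0 (by norm_num) hv hz0ne hgne (by norm_num) hS hm
    (by
      rw [dS6]
      linear_combination ((544/81) * wf z0 ^ 1 + (2936/27) * wf z0 ^ 2 + (161206/81) * wf z0 ^ 3 + (1004/9) * wf z0 ^ 4 + (412/81) * wf z0 ^ 5 + (58/27) * wf z0 ^ 6) * hq)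
    hM0 hM1 hK
  have hc : ((2 * π * I)⁻¹ : ℂ) ^ 2 = -(1 / (4 * (π : ℂ) ^ 2)) := by
    have hpi : (π : ℂ) ≠ 0 := by exact_mod_cast Real.pi_ne_zero
    rw [inv_pow, mul_pow, mul_pow, Complex.I_sq]
    field_simp
    norm_num
  rw [hc, hz0sq] at hfin
  have hpi : (π : ℂ) ≠ 0 := by exact_mod_cast Real.pi_ne_zero
  have hsq : ((40 * T + 13 * g : ℝ) : ℂ) ^ 2 = ((81 ^ 2 / (2 * π ^ 2) : ℝ) : ℂ) := by
    push_cast
    have h1 : (40 * (T : ℂ) + 13 * g) ^ 2 = 40 ^ 2 * ((T : ℂ) + 13 / 40 * g) ^ 2 := by ring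
    rw [h1]
    field_simp at hfin ⊢
    linear_combination (1 / 10649600 : ℂ) * hfin
  have hsqR : (40 * T + 13 * g) ^ 2 = 81 ^ 2 / (2 * π ^ 2) := by exact_mod_cast hsq
  have hval : 40 * T + 13 * g = 81 / (√2 * π) := by
    have hp : 0 ≤ 40 * T + 13 * g := by linarith
    have hq' : (0 : ℝ) ≤ 81 / (√2 * π) := by positivity
    rw [← Real.sqrt_sq hp, ← Real.sqrt_sq hq', hsqR]
    congr 1
    have h1 : √2 ^ 2 = (2 : ℝ) := Real.sq_sqrt (by norm_num)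
    have h2 := Real.pi_ne_zero
    rw [div_pow, mul_pow]
    first
      | (rw [mul_pow, h1]; norm_num)
      | rw [h1]
  have hz : ((1 / 18 : ℝ) : ℂ) = (1 / 18 : ℂ) := by push_cast; ring
  rw [hz] at hg hT
  rw [hg, hT, ← hval]
  push_cast
  ring

theorem ev (hMp : MpStmt) (hI : Inv26Stmt) (h3 : Mod3Stmt) (h5 : Mod5Stmt) (hA1 : An1Stmt)
    (hA2 : An2Stmt) (hQ : QsStmt) : EvStmt :=
  ⟨ev_three hMp hI h3 hA1 hA2 hQ, ev_five hMp hI h5 hA1 hA2 hQ⟩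

end Pool.Agent.H65.Pi
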