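/-
Module FIN of project PI (MP_e49510_nt).
-/
import Pool.Agent.H65.Pi.AN2

set_option autoImplicit false

namespace Pool.Agent.H65.Pi

open Complex Filter Asymptotics Pool.Agent.H22.Pi
open scoped Real Topology

theorem fin_K (hF : FormalStmt) (h1 : An1Stmt) (x : ℝ) (hx0 : 0 ≤ x) (hx : x < 1 / 8) :
    2 * (1 - 3 * (x : ℂ) + 3 * (x : ℂ) ^ 2) * ((∑' N : ℕ, (kco N : ℝ) * x ^ N : ℝ) : ℂ) =
      (x : ℂ) * (1 - 2 * x) * Gz 0 x + (1 - (x : ℂ)) * (1 - 2 * x) * Gz 1 x := by
  have hz : ‖(x : ℂ)‖ < 1 / 8 := by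
    rw [Complex.norm_real, Real.norm_of_nonneg hx0]
    exact hx
  have hk : Summable (fun N : ℕ => (kco N : ℝ) * x ^ N) := by
    refine Summable.of_norm_bounded h1.2.2.2.1.norm fun N => ?_
    rw [norm_mul, norm_mul, norm_pow, norm_pow]
    have : ‖x‖ ≤ ‖(1 / 8 : ℝ)‖ := by
      rw [Real.norm_of_nonneg hx0, Real.norm_of_nonneg (by norm_num)]
      exact hx.le
    gcongr
  have hK : HS (PowerSeries.mk kco) x ((∑' N : ℕ, (kco N : ℝ) * x ^ N : ℝ) : ℂ) := by
    have := (Complex.hasSum_ofReal.mpr hk.hasSum)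
    unfold HS
    have e : (fun N : ℕ => ((PowerSeries.coeff N (PowerSeries.mk kco) : ℚ) : ℂ) * (x : ℂ) ^ N) =
        fun N : ℕ => (((kco N : ℝ) * x ^ N : ℝ) : ℂ) := by
      funext N
      rw [PowerSeries.coeff_mk]
      push_cast
      rfl
    rw [e]
    exact this
  have hF2 := hF.2
  rw [← thj_zero, thj_succ] at hF2
  have a1 := hK.poly_mul' (2 * (1 - 3 * Polynomial.X + 3 * Polynomial.X ^ 2))
    (2 * (1 - 3 * PowerSeries.X + 3 * PowerSeries.X ^ 2)) (2 * (1 - 3 * (x : ℂ) + 3 * (x : ℂ) ^ 2))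
    (by simp only [map_mul, map_add, map_sub, map_pow, map_ofNat, map_one,
          Polynomial.coeToPowerSeries.ringHom_apply, Polynomial.coe_X])
    (by simp only [map_mul, map_add, map_sub, map_pow, map_ofNat, map_one, Polynomial.aeval_X])
  have a2 := (an2_HS h1 0 x hz).poly_mul' (Polynomial.X * (1 - 2 * Polynomial.X))
    (PowerSeries.X * (1 - 2 * PowerSeries.X)) ((x : ℂ) * (1 - 2 * x))
    (by simp only [map_mul, map_add, map_sub, map_pow, map_ofNat, map_one,
          Polynomial.coeToPowerSeries.ringHom_apply, Polynomial.coe_X])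
    (by simp only [map_mul, map_add, map_sub, map_pow, map_ofNat, map_one, Polynomial.aeval_X])
  have a3 := (an2_HS h1 1 x hz).poly_mul' ((1 - Polynomial.X) * (1 - 2 * Polynomial.X))
    ((1 - PowerSeries.X) * (1 - 2 * PowerSeries.X)) ((1 - (x : ℂ)) * (1 - 2 * x))
    (by simp only [map_mul, map_add, map_sub, map_pow, map_ofNat, map_one,
          Polynomial.coeToPowerSeries.ringHom_apply, Polynomial.coe_X])
    (by simp only [map_mul, map_add, map_sub, map_pow, map_ofNat, map_one, Polynomial.aeval_X])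
  have a4 := a2.add a3
  refine a1.unique ?_
  rw [hF2]
  exact a4

/-- `Gz 0` at a real point -/
theorem fin_G (h1 : An1Stmt) (x : ℝ) (hx0 : 0 ≤ x) (hx : x < 1 / 8) :
    ((∑' N : ℕ, (aco N : ℝ) * x ^ N : ℝ) : ℂ) = Gz 0 x := by
  rw [Complex.ofReal_tsum]
  unfold Gz
  congr 1
  funext N
  push_cast
  simp

theorem fin (hE : EvStmt) (hF : FormalStmt) (h1 : An1Stmt) : FinalStmt := by
  obtain ⟨hE1, hE2⟩ := hE
  constructor
  · obtain ⟨hs0, hs1⟩ := h1.2.2.2.2 (1 / 11) (by norm_num) (by norm_num)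
    have hK := fin_K hF h1 (1 / 11) (by norm_num) (by norm_num)
    have hG := fin_G h1 (1 / 11) (by norm_num) (by norm_num)
    set K : ℝ := ∑' N : ℕ, (kco N : ℝ) * (1 / 11 : ℝ) ^ N with hKdef
    set G : ℝ := ∑' N : ℕ, (aco N : ℝ) * (1 / 11 : ℝ) ^ N with hGdef
    have hs := (hs1.mul_left 7).add hs0
    have e : (fun k : ℕ => (7 * (k : ℝ) + 1) * S2 k (1 / 11) / 9 ^ k) =
        fun k : ℕ => 7 * ((k : ℝ) * S2 k (1 / 11) * ((1 / 11) / (1 - 2 * (1 / 11))) ^ k) +
          S2 k (1 / 11) * ((1 / 11) / (1 - 2 * (1 / 11))) ^ k := by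
      funext k
      have h9 : ((1 / 11 : ℝ)) / (1 - 2 * (1 / 11)) = 1 / 9 := by norm_num
      rw [h9, one_div_pow]
      ring
    rw [e]
    have hval : 7 * K + G = 5445 / (104 * √39 * π) := by
      have hc : ((7 * K + G : ℝ) : ℂ) = ((5445 / (104 * √39 * π) : ℝ) : ℂ) := by
        have h2 : ((5445 / (104 * √39 * π) : ℝ) : ℂ) =
            (5 / 26 : ℂ) * ((1089 / (4 * √39 * π) : ℝ) : ℂ) := by
          have h3 : (5445 / (104 * √39 * π) : ℝ) = (5 / 26) * (1089 / (4 * √39 * π)) := by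
            have : √39 ≠ 0 := by positivity
            have := Real.pi_ne_zero
            field_simp
            norm_num
          rw [h3]
          push_cast
          ring
        rw [h2, ← hE1]
        push_cast at hK hG ⊢
        rw [hG]
        linear_combination (121 / 26 : ℂ) * hK
      exact_mod_cast hc
    rw [← hval]
    exact hs
  · obtain ⟨hs0, hs1⟩ := h1.2.2.2.2 (1 / 18) (by norm_num) (by norm_num)
    have hK := fin_K hF h1 (1 / 18) (by norm_num) (by norm_num)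
    have hG := fin_G h1 (1 / 18) (by norm_num) (by norm_num)
    set K : ℝ := ∑' N : ℕ, (kco N : ℝ) * (1 / 18 : ℝ) ^ N with hKdef
    set G : ℝ := ∑' N : ℕ, (aco N : ℝ) * (1 / 18 : ℝ) ^ N with hGdef
    have hs := (hs1.mul_left 1365).add (hs0.mul_left 181)
    have e : (fun k : ℕ => (1365 * (k : ℝ) + 181) * S2 k (1 / 18) / 16 ^ k) =
        fun k : ℕ => 1365 * ((k : ℝ) * S2 k (1 / 18) * ((1 / 18) / (1 - 2 * (1 / 18))) ^ k) +
          181 * (S2 k (1 / 18) * ((1 / 18) / (1 - 2 * (1 / 18))) ^ k) := by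
      funext k
      have h9 : ((1 / 18 : ℝ)) / (1 - 2 * (1 / 18)) = 1 / 16 := by norm_num
      rw [h9, one_div_pow]
      ring
    rw [e]
    have hval : 1365 * K + 181 * G = 1377 / (√2 * π) := by
      have hc : ((1365 * K + 181 * G : ℝ) : ℂ) = ((1377 / (√2 * π) : ℝ) : ℂ) := by
        have h2 : ((1377 / (√2 * π) : ℝ) : ℂ) = (17 : ℂ) * ((81 / (√2 * π) : ℝ) : ℂ) := by
          have h3 : (1377 / (√2 * π) : ℝ) = 17 * (81 / (√2 * π)) := by ring
          rw [h3]
          push_cast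
          ring
        rw [h2, ← hE2]
        push_cast at hK hG ⊢
        rw [hG]
        linear_combination (1365 * 324 / 546 : ℂ) * hK
      exact_mod_cast hc
    rw [← hval]
    exact hs

end Pool.Agent.H65.Pi
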